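import Pool.Agent.H387R3.ZT.Stmts2
import Pool.Agent.H525R3.FFp.RR

/-! Project ZT, task Sch: F. K. Schmidt's theorem from the bounds on the number of effective
divisors. -/

set_option autoImplicit false
set_option linter.all false

open Polynomial

namespace Pool.Agent.H675R3.ZT

open Pool.Agent.H387R3.ZT FF

section fin

variable {k K : Type} [Field k] [Finite k] [Field K] [Algebra k K] [IsFF k K]

/-- the polynomials of degree at most `m` over a finite field are finite in number -/
theorem finite_poly (m : ℕ) : {g : k[X] | g.natDegree ≤ m}.Finite := by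
  have h1 : (Set.univ : Set (Fin (m + 1) → k)).Finite := Set.finite_univ
  refine (h1.image fun c : Fin (m + 1) → k => ∑ i : Fin (m + 1), C (c i) * X ^ (i : ℕ)).subset ?_
  intro g hg
  refine ⟨fun i => g.coeff i, Set.mem_univ _, ?_⟩
  simp only [Set.mem_setOf_eq] at hg
  have h2 := g.as_sum_range' (m + 1) (by omega)
  conv_rhs => rw [h2]
  rw [Finset.sum_range]
  refine Finset.sum_congr rfl fun i _ => ?_
  rw [C_mul_X_pow_eq_monomial]

theorem reg_aeval (P : Place k K) {x : K} (hx : P.Reg x) (g : k[X]) : P.Reg (aeval x g) := by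
  induction g using Polynomial.induction_on' with
  | add p q hp hq => rw [map_add]; exact P.reg_add hp hq
  | monomial n a =>
    rw [aeval_monomial]
    refine P.reg_mul (P.reg_const a) ?_
    induction n with
    | zero => rw [pow_zero]; exact P.reg_one
    | succ n ih => rw [pow_succ]; exact P.reg_mul ih hx

theorem red_aeval (P : Place k K) {x : K} (hx : P.Reg x) (g : k[X]) :
    P.red (aeval x g) = aeval (P.red x) g := by
  induction g using Polynomial.induction_on' with
  | add p q hp hq =>
    rw [map_add, map_add, P.red_add (reg_aeval P hx p) (reg_aeval P hx q), hp, hq]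
  | monomial n a =>
    have h1 : P.Reg (x ^ n) := by
      induction n with
      | zero => rw [pow_zero]; exact P.reg_one
      | succ n ih => rw [pow_succ]; exact P.reg_mul ih hx
    rw [aeval_monomial, aeval_monomial, P.red_mul (P.reg_const a) h1, P.red_pow hx]
    rfl

theorem finite_deg (m : ℕ) : {P : Place k K | P.deg ≤ m}.Finite := by
  obtain ⟨x, hx⟩ := IsFF.exists_transcendental (k := k) (K := K)
  have hxne : x ≠ 0 := by
    rintro rfl
    exact hx (isAlgebraic_zero)
  have hA := ((finite_poly (k := k) m).subset (t := {g : k[X] | g ≠ 0 ∧ g.natDegree ≤ m})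
    (fun g hg => hg.2)).biUnion fun g _ =>
      Pool.Agent.H525R3.FFp.finite_support (k := k) (aeval x g)
  refine (hA.union (Pool.Agent.H525R3.FFp.finite_support (k := k) x)).subset ?_
  intro P hP
  simp only [Set.mem_setOf_eq] at hP
  by_cases hxP : P.ord x < 0
  · right
    simp only [Set.mem_setOf_eq]
    omega
  · left
    have hreg : P.Reg x := Or.inr (by omega)
    have hpos := Pool.Agent.H525R3.FFp.deg_pos P
    have hfd : FiniteDimensional k P.RF := Module.finite_of_finrank_pos hpos
    have hint : IsIntegral k (P.red x) := IsIntegral.of_finite k _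
    have hmin := minpoly.ne_zero hint
    have hdeg : (minpoly k (P.red x)).natDegree ≤ m :=
      (minpoly.natDegree_le (P.red x)).trans hP
    simp only [Set.mem_iUnion, Set.mem_setOf_eq]
    refine ⟨minpoly k (P.red x), ⟨hmin, hdeg⟩, ?_⟩
    have h0 : P.red (aeval x (minpoly k (P.red x))) = 0 := by
      rw [red_aeval P hreg, minpoly.aeval]
    rw [P.red_eq_zero_iff (reg_aeval P hreg _)] at h0
    rcases h0 with h | h
    · exact absurd h ((transcendental_iff.1 hx _).mt hmin)
    · omega

variable (k K) in
/-- effective divisors of degree `m` -/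
abbrev E (m : ℕ) : Type := {D : Place k K →₀ ℕ // (D.sum fun v n => n * v.deg) = m}

instance finite_E (m : ℕ) : Finite (E k K m) := by
  classical
  have hS := finite_deg (k := k) (K := K) m
  let B : Place k K →₀ ℕ := Finsupp.indicator hS.toFinset (fun _ _ => m)
  have h1 : (Set.Icc (0 : Place k K →₀ ℕ) B).Finite := Set.finite_Icc _ _
  refine (h1.subset (t := {D : Place k K →₀ ℕ | (D.sum fun v n => n * v.deg) = m}) ?_).to_subtype
  intro D hD
  simp only [Set.mem_setOf_eq] at hD
  refine ⟨zero_le, ?_⟩
  rw [Finsupp.le_def]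
  intro v
  by_cases hv : D v = 0
  · rw [hv]; exact Nat.zero_le _
  have h2 : D v * v.deg ≤ m := by
    rw [← hD]
    unfold Finsupp.sum
    exact Finset.single_le_sum (f := fun v => D v * v.deg) (fun _ _ => Nat.zero_le _)
      (Finsupp.mem_support_iff.2 hv)
  have hpos := Pool.Agent.H525R3.FFp.deg_pos v
  have h3 : v.deg ≤ m := (Nat.le_mul_of_pos_left _ (Nat.pos_of_ne_zero hv)).trans h2
  have h4 : D v ≤ m := (Nat.le_mul_of_pos_right _ hpos).trans h2
  have h5 : B v = m := Finsupp.indicator_of_mem (hS.mem_toFinset.2 h3) _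
  rw [h5]
  exact h4

end fin

theorem card_E (k F : Type) [Field k] [Field F] [Algebra k F] (m : ℕ) :
    Nat.card (E k F m) = bnum k F m := rfl

section push

variable {k F F' : Type} [Field k] [Finite k] [Field F] [Algebra k F] [IsFF k F] [Field F']
  [Algebra k F'] [IsFF k F'] (s t : Place k F → Place k F')

/-- push forward of a pair of divisors -/
noncomputable def push (D : (Place k F →₀ ℕ) × (Place k F →₀ ℕ)) : Place k F' →₀ ℕ :=
  Finsupp.mapDomain s D.1 + Finsupp.mapDomain t D.2

variable {s t} (hs : Function.Injective s) (ht : Function.Injective t) (hst : ∀ v w, s v ≠ t w)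

include hs hst in
theorem push_s (D : (Place k F →₀ ℕ) × (Place k F →₀ ℕ)) (v : Place k F) :
    push s t D (s v) = D.1 v := by
  unfold push
  rw [Finsupp.add_apply, Finsupp.mapDomain_apply hs, Finsupp.mapDomain_notin_range, add_zero]
  rintro ⟨w, hw⟩
  exact hst v w hw.symm

include ht hst in
theorem push_t (D : (Place k F →₀ ℕ) × (Place k F →₀ ℕ)) (v : Place k F) :
    push s t D (t v) = D.2 v := by
  unfold push
  rw [Finsupp.add_apply, Finsupp.mapDomain_apply ht, Finsupp.mapDomain_notin_range, zero_add]
  rintro ⟨w, hw⟩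
  exact hst w v hw

include hs ht hst in
theorem push_injective : Function.Injective (push s t) := by
  intro D D' h
  refine Prod.ext ?_ ?_
  · ext v
    rw [← push_s hs hst D v, ← push_s hs hst D' v, h]
  · ext v
    rw [← push_t ht hst D v, ← push_t ht hst D' v, h]

theorem push_deg (hsd : ∀ v, (s v).deg = v.deg) (htd : ∀ v, (t v).deg = v.deg)
    (D : (Place k F →₀ ℕ) × (Place k F →₀ ℕ)) :
    ((push s t D).sum fun v n => n * v.deg) =
      (D.1.sum fun v n => n * v.deg) + (D.2.sum fun v n => n * v.deg) := by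
  unfold push
  rw [Finsupp.sum_add_index', Finsupp.sum_mapDomain_index, Finsupp.sum_mapDomain_index]
  · simp only [hsd, htd]
  · intro; simp
  · intro b m n; ring
  · intro; simp
  · intro b m n; ring
  · intro; simp
  · intro b m n; ring

include hs ht hst in
/-- the counting inequality -/
theorem count (hsd : ∀ v, (s v).deg = v.deg) (htd : ∀ v, (t v).deg = v.deg) (N M : ℕ)
    (a b : Fin N → ℕ) (ha : Function.Injective a) (hab : ∀ j, a j + b j = M) :
    ∑ j, bnum k F (a j) * bnum k F (b j) ≤ bnum k F' M := by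
  have h1 : Nat.card (Σ j : Fin N, E k F (a j) × E k F (b j)) =
      ∑ j, bnum k F (a j) * bnum k F (b j) := by
    rw [Nat.card_sigma]
    refine Finset.sum_congr rfl fun j _ => ?_
    rw [Nat.card_prod, card_E, card_E]
  rw [← h1, ← card_E]
  let f : (Σ j : Fin N, E k F (a j) × E k F (b j)) → E k F' M := fun z =>
    ⟨push s t (z.2.1.1, z.2.2.1), by
      rw [push_deg hsd htd, z.2.1.2, z.2.2.2, hab]⟩
  refine Nat.card_le_card_of_injective f ?_
  rintro ⟨j, ⟨D1, h1⟩, ⟨D2, h2⟩⟩ ⟨j', ⟨D1', h1'⟩, ⟨D2', h2'⟩⟩ h
  have h3 : push s t (D1, D2) = push s t (D1', D2') := congrArg Subtype.val h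
  have h4 := push_injective hs ht hst h3
  simp only [Prod.mk.injEq] at h4
  obtain ⟨rfl, rfl⟩ := h4
  have h5 : j = j' := ha (h1.symm.trans h1')
  subst h5
  rfl

end push

theorem taskSch : TaskSch := by
  intro hUp hLow hConst k F _ _ _ _ _ hk d hd
  by_contra hd1
  obtain ⟨v0, -⟩ := Pool.Agent.H525R3.FFp.exists_place (k := k) (K := F)
  have hpos := Pool.Agent.H525R3.FFp.deg_pos v0
  obtain ⟨l, hl, hld⟩ := Nat.exists_prime_and_dvd hd1
  obtain ⟨F', i1, i2, i3, s, t, hs, ht, hst, hsd, htd⟩ :=
    hConst k F hk l hl fun v => hld.trans (hd v)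
  obtain ⟨C', hC'⟩ := hUp k F'
  obtain ⟨d0, C, m0, hd0, hC⟩ := hLow k F
  set q := Nat.card k with hq
  have hq0 : 0 < q := Nat.card_pos
  set N : ℕ := C * C * C' + 1 with hN
  have key := count hs ht hst hsd htd N (d0 * (2 * m0 + N)) (fun j => d0 * (m0 + j))
    (fun j => d0 * (m0 + (N - j))) (by
      intro i j hij
      simp only at hij
      have h1 := Nat.eq_of_mul_eq_mul_left (by omega) hij
      exact Fin.ext (by omega)) (by
      intro j
      rw [← mul_add]
      congr 1
      have := j.2
      omega)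
  have h1 : N * q ^ (d0 * (2 * m0 + N)) ≤
      C * C * ∑ j : Fin N, bnum k F (d0 * (m0 + j)) * bnum k F (d0 * (m0 + (N - j))) := by
    rw [Finset.mul_sum]
    calc N * q ^ (d0 * (2 * m0 + N)) = ∑ _j : Fin N, q ^ (d0 * (2 * m0 + N)) := by simp
      _ ≤ _ := by
        refine Finset.sum_le_sum fun j _ => ?_
        have h2 := hC (m0 + j) (by omega)
        have h3 := hC (m0 + (N - j)) (by omega)
        have h4 := Nat.mul_le_mul h2 h3
        rw [← pow_add] at h4
        have h5 : d0 * (m0 + (j : ℕ)) + d0 * (m0 + (N - j)) = d0 * (2 * m0 + N) := by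
          rw [← mul_add]
          congr 1
          have := j.2
          omega
        rw [h5] at h4
        refine h4.trans (le_of_eq ?_)
        ring
  have h2 : N * q ^ (d0 * (2 * m0 + N)) ≤ C * C * C' * q ^ (d0 * (2 * m0 + N)) := by
    refine h1.trans ?_
    calc _ ≤ C * C * bnum k F' (d0 * (2 * m0 + N)) := Nat.mul_le_mul_left _ key
      _ ≤ C * C * (C' * q ^ (d0 * (2 * m0 + N))) := Nat.mul_le_mul_left _ (hC' _)
      _ = _ := by ring
  have h3 := Nat.le_of_mul_le_mul_right h2 (pow_pos hq0 _)
  omega

end Pool.Agent.H675R3.ZT
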